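import Mathlib

/-!
# Counting lists of tuples
-/

set_option autoImplicit false

namespace Q127.Sep

open Finset

section Lists

variable {T : Type*} [Fintype T] [DecidableEq T]

/-- All lists of length `N`. -/
def seqs (T : Type*) [Fintype T] [DecidableEq T] : ℕ → Finset (List T)
  | 0 => {[]}
  | N + 1 => ((univ : Finset T) ×ˢ seqs T N).image (fun p => p.1 :: p.2)

omit [Fintype T] [DecidableEq T] in
theorem cons_inj : Function.Injective (fun p : T × List T => p.1 :: p.2) := by
  rintro ⟨a, l⟩ ⟨b, l'⟩ h
  simp only [List.cons.injEq] at h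
  exact Prod.ext h.1 h.2

theorem card_seqs (N : ℕ) : (seqs T N).card = Fintype.card T ^ N := by
  induction N with
  | zero => simp [seqs]
  | succ N ih =>
    rw [seqs, card_image_of_injective _ cons_inj, card_product, ih, card_univ, pow_succ, mul_comm]

theorem length_of_mem_seqs {N : ℕ} {l : List T} (h : l ∈ seqs T N) : l.length = N := by
  induction N generalizing l with
  | zero => simpa [seqs] using h
  | succ N ih =>
    rw [seqs, mem_image] at h
    obtain ⟨p, hp, rfl⟩ := h
    rw [List.length_cons, ih (mem_product.1 hp).2]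

theorem card_countP_le (p : T → Prop) [DecidablePred p] (ρ : ℝ) (hρ : 0 ≤ ρ)
    (ha : ((univ.filter p).card : ℝ) ≤ ρ * Fintype.card T) (N t : ℕ) :
    (((seqs T N).filter (fun l => t ≤ l.countP (fun x => decide (p x)))).card : ℝ)
      ≤ (Fintype.card T : ℝ) ^ N * (N * ρ) ^ t := by
  induction N generalizing t with
  | zero =>
    rcases Nat.eq_zero_or_pos t with rfl | ht
    · simp [seqs]
    · have : ((seqs T 0).filter (fun l => t ≤ l.countP (fun x => decide (p x)))) = ∅ := by
        rw [filter_eq_empty_iff]
        intro l hl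
        rw [seqs, mem_singleton] at hl
        subst hl
        simp
        omega
      rw [this]
      simp only [card_empty, Nat.cast_zero]
      positivity
  | succ N ih =>
    rcases Nat.eq_zero_or_pos t with rfl | ht
    · have := card_filter_le (seqs T (N + 1)) (fun l => 0 ≤ l.countP (fun x => decide (p x)))
      rw [card_seqs] at this
      simpa using (by exact_mod_cast this :
        (((seqs T (N + 1)).filter (fun l => 0 ≤ l.countP (fun x => decide (p x)))).card : ℝ)
          ≤ (Fintype.card T : ℝ) ^ (N + 1))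
    · obtain ⟨t, rfl⟩ : ∃ s, t = s + 1 := ⟨t - 1, by omega⟩
      have hsub : (seqs T (N + 1)).filter (fun l => t + 1 ≤ l.countP (fun x => decide (p x))) ⊆
          ((univ.filter p) ×ˢ
            ((seqs T N).filter (fun l => t ≤ l.countP (fun x => decide (p x))))).image
              (fun p => p.1 :: p.2) ∪
          ((univ : Finset T) ×ˢ
            ((seqs T N).filter (fun l => t + 1 ≤ l.countP (fun x => decide (p x))))).image
              (fun p => p.1 :: p.2) := by
        intro l hl
        rw [mem_filter, seqs, mem_image] at hl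
        obtain ⟨⟨⟨x, l'⟩, hx, rfl⟩, hl⟩ := hl
        rw [mem_product] at hx
        rw [mem_union, mem_image, mem_image]
        change t + 1 ≤ List.countP (fun x => decide (p x)) (x :: l') at hl
        rw [List.countP_cons] at hl
        by_cases hpx : p x
        · left
          refine ⟨(x, l'), ?_, rfl⟩
          rw [mem_product, mem_filter, mem_filter]
          refine ⟨⟨mem_univ _, hpx⟩, hx.2, ?_⟩
          simp only [hpx, decide_true, if_true] at hl
          exact Nat.le_of_succ_le_succ hl
        · right
          refine ⟨(x, l'), ?_, rfl⟩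
          rw [mem_product, mem_filter]
          refine ⟨mem_univ _, hx.2, ?_⟩
          simp only [hpx, decide_false] at hl
          simpa using hl
      have h1 := le_trans (card_le_card hsub) (card_union_le _ _)
      rw [card_image_of_injective _ cons_inj, card_image_of_injective _ cons_inj, card_product,
        card_product, card_univ] at h1
      have h2 := ih t
      have h3 := ih (t + 1)
      set c1 : ℝ := (((seqs T N).filter (fun l => t ≤ l.countP (fun x => decide (p x)))).card : ℝ)
      set c2 : ℝ :=
        (((seqs T N).filter (fun l => t + 1 ≤ l.countP (fun x => decide (p x)))).card : ℝ)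
      set τ : ℝ := (Fintype.card T : ℝ) with hτ
      have hτ0 : 0 ≤ τ := Nat.cast_nonneg _
      have h4 : (((seqs T (N + 1)).filter
          (fun l => t + 1 ≤ l.countP (fun x => decide (p x)))).card : ℝ) ≤
          ((univ.filter p).card : ℝ) * c1 + τ * c2 := by
        have h1' := (Nat.cast_le (α := ℝ)).2 h1
        push_cast at h1'
        exact h1'
      refine le_trans h4 ?_
      have h5 : ((univ.filter p).card : ℝ) * c1 ≤ (ρ * τ) * (τ ^ N * (N * ρ) ^ t) :=
        mul_le_mul ha h2 (Nat.cast_nonneg _) (by positivity)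
      have h6 : τ * c2 ≤ τ * (τ ^ N * (N * ρ) ^ (t + 1)) := mul_le_mul_of_nonneg_left h3 hτ0
      refine le_trans (add_le_add h5 h6) ?_
      have h7 : (ρ * τ) * (τ ^ N * (N * ρ) ^ t) + τ * (τ ^ N * (N * ρ) ^ (t + 1)) =
          τ ^ (N + 1) * (ρ ^ (t + 1) * ((N : ℝ) ^ t * (N + 1))) := by
        ring
      rw [h7]
      have h8 : τ ^ (N + 1) * (((N + 1 : ℕ) : ℝ) * ρ) ^ (t + 1) =
          τ ^ (N + 1) * (ρ ^ (t + 1) * ((N + 1 : ℝ) ^ t * (N + 1))) := by
        rw [mul_pow]
        push_cast
        ring
      rw [h8]
      have h9 : (N : ℝ) ^ t ≤ (N + 1 : ℝ) ^ t := by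
        apply pow_le_pow_left₀ (Nat.cast_nonneg _)
        linarith
      gcongr

/-- A property of lists that passes to tails and that the next element keeps with
probability at most `σ`. -/
theorem card_prefix_le (B : List T → Prop) [DecidablePred B] (σ : ℝ) (hσ : 0 ≤ σ) (M : ℕ)
    (hB : ∀ x l, B (x :: l) → B l)
    (hσB : ∀ l, l.length < M → B l →
      (((univ : Finset T).filter (fun x => B (x :: l))).card : ℝ) ≤ σ * Fintype.card T)
    (N : ℕ) (hN : N ≤ M) :
    (((seqs T N).filter B).card : ℝ) ≤ (Fintype.card T : ℝ) ^ N * σ ^ N := by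
  induction N with
  | zero =>
    have := card_filter_le (seqs T 0) B
    rw [card_seqs] at this
    simpa using (by exact_mod_cast this : (((seqs T 0).filter B).card : ℝ) ≤ 1)
  | succ N ih =>
    have ih' := ih (by omega)
    have hsub : (seqs T (N + 1)).filter B ⊆
        ((seqs T N).filter B).biUnion
          (fun l => ((univ : Finset T).filter (fun x => B (x :: l))).image (fun x => x :: l)) := by
      intro l hl
      rw [mem_filter, seqs, mem_image] at hl
      obtain ⟨⟨⟨x, l'⟩, hx, rfl⟩, hl⟩ := hl
      rw [mem_product] at hx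
      rw [mem_biUnion]
      refine ⟨l', mem_filter.2 ⟨hx.2, hB x l' hl⟩, ?_⟩
      rw [mem_image]
      exact ⟨x, mem_filter.2 ⟨mem_univ _, hl⟩, rfl⟩
    have h1 := le_trans (card_le_card hsub) card_biUnion_le
    have h2 : (((seqs T (N + 1)).filter B).card : ℝ) ≤
        ∑ l ∈ (seqs T N).filter B, σ * Fintype.card T := by
      have h1' := (Nat.cast_le (α := ℝ)).2 h1
      push_cast at h1'
      refine le_trans h1' ?_
      refine sum_le_sum (fun l hl => ?_)
      rw [mem_filter] at hl
      refine le_trans ?_ (hσB l (by rw [length_of_mem_seqs hl.1]; omega) hl.2)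
      exact_mod_cast card_image_le
    rw [sum_const, nsmul_eq_mul] at h2
    refine le_trans h2 ?_
    have h3 : (((seqs T N).filter B).card : ℝ) * (σ * Fintype.card T) ≤
        ((Fintype.card T : ℝ) ^ N * σ ^ N) * (σ * Fintype.card T) :=
      mul_le_mul_of_nonneg_right ih' (by positivity)
    refine le_trans h3 (le_of_eq ?_)
    ring

end Lists

section Tuples

variable {V : Type*} [Fintype V] [DecidableEq V] {r : ℕ}

omit [Fintype V] in
theorem card_pair_le (A : Fin r → Finset V) {j k : Fin r} (hjk : j ≠ k) (P : V → V → Prop)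
    [DecidableRel P] :
    ((Fintype.piFinset A).filter (fun x => P (x j) (x k))).card * ((A j).card * (A k).card) ≤
      ((A j ×ˢ A k).filter (fun p => P p.1 p.2)).card * ∏ i, (A i).card := by
  set Q : ℕ := ∏ i ∈ (univ.erase j).erase k, (A i).card with hQ
  have hkj : k ∈ (univ : Finset (Fin r)).erase j := mem_erase.2 ⟨hjk.symm, mem_univ _⟩
  have hprod : ∏ i, (A i).card = (A j).card * ((A k).card * Q) := by
    rw [hQ, mul_prod_erase _ (fun i => (A i).card) hkj,
      mul_prod_erase _ (fun i => (A i).card) (mem_univ j)]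
  have hsub : (Fintype.piFinset A).filter (fun x => P (x j) (x k)) ⊆
      ((A j ×ˢ A k).filter (fun p => P p.1 p.2)).biUnion (fun p =>
        Fintype.piFinset (Function.update (Function.update A j {p.1}) k {p.2})) := by
    intro x hx
    rw [mem_filter, Fintype.mem_piFinset] at hx
    rw [mem_biUnion]
    refine ⟨(x j, x k), mem_filter.2 ⟨mem_product.2 ⟨hx.1 j, hx.1 k⟩, hx.2⟩, ?_⟩
    rw [Fintype.mem_piFinset]
    intro i
    by_cases hik : i = k
    · subst hik
      simp
    · rw [Function.update_of_ne hik]
      by_cases hij : i = j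
      · subst hij
        simp
      · rw [Function.update_of_ne hij]
        exact hx.1 i
  have hcard : ∀ p ∈ ((A j ×ˢ A k).filter (fun p => P p.1 p.2)),
      (Fintype.piFinset (Function.update (Function.update A j {p.1}) k {p.2})).card ≤ Q := by
    intro p _
    rw [Fintype.card_piFinset, ← mul_prod_erase _ _ (mem_univ j), ← mul_prod_erase _ _ hkj,
      Function.update_of_ne hjk, Function.update_self, Function.update_self, card_singleton,
      card_singleton, one_mul, one_mul, hQ]
    refine le_of_eq (prod_congr rfl (fun i hi => ?_))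
    rw [mem_erase, mem_erase] at hi
    rw [Function.update_of_ne hi.1, Function.update_of_ne hi.2.1]
  have h1 := le_trans (card_le_card hsub) (card_biUnion_le_card_mul _ _ _ hcard)
  rw [hprod]
  calc ((Fintype.piFinset A).filter (fun x => P (x j) (x k))).card * ((A j).card * (A k).card)
      ≤ (((A j ×ˢ A k).filter (fun p => P p.1 p.2)).card * Q) * ((A j).card * (A k).card) :=
        Nat.mul_le_mul_right _ h1
    _ = _ := by ring

omit [Fintype V] in
/-- If for all `j ≠ k` at most a fraction `1 / (2 r²)` of the pairs are bad, then at least half of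
the tuples have no bad pair. -/
theorem half_good (A : Fin r → Finset V) (P : V → V → Prop) [DecidableRel P]
    (hA : ∀ i, 0 < (A i).card)
    (hP : ∀ j k : Fin r, j ≠ k →
      2 * r ^ 2 * ((A j ×ˢ A k).filter (fun p => P p.1 p.2)).card ≤ (A j).card * (A k).card) :
    ∏ i, (A i).card ≤
      2 * ((Fintype.piFinset A).filter (fun x => ∀ j k, j ≠ k → ¬ P (x j) (x k))).card := by
  set Z := ∏ i, (A i).card with hZ
  have h1 : ∀ j k : Fin r, j ≠ k →
      2 * r ^ 2 * ((Fintype.piFinset A).filter (fun x => P (x j) (x k))).card ≤ Z := by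
    intro j k hjk
    have h2 := card_pair_le A hjk P
    have h3 := hP j k hjk
    have hpos : 0 < (A j).card * (A k).card := Nat.mul_pos (hA j) (hA k)
    refine Nat.le_of_mul_le_mul_right ?_ hpos
    calc 2 * r ^ 2 * ((Fintype.piFinset A).filter (fun x => P (x j) (x k))).card *
          ((A j).card * (A k).card)
        = 2 * r ^ 2 * (((Fintype.piFinset A).filter (fun x => P (x j) (x k))).card *
          ((A j).card * (A k).card)) := by ring
      _ ≤ 2 * r ^ 2 * (((A j ×ˢ A k).filter (fun p => P p.1 p.2)).card * Z) :=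
          Nat.mul_le_mul_left _ h2
      _ = (2 * r ^ 2 * ((A j ×ˢ A k).filter (fun p => P p.1 p.2)).card) * Z := by ring
      _ ≤ ((A j).card * (A k).card) * Z := Nat.mul_le_mul_right _ h3
      _ = _ := by ring
  have hbad : (Fintype.piFinset A).filter (fun x => ¬ ∀ j k, j ≠ k → ¬ P (x j) (x k)) ⊆
      ((univ : Finset (Fin r)).offDiag).biUnion
        (fun p => (Fintype.piFinset A).filter (fun x => P (x p.1) (x p.2))) := by
    intro x hx
    rw [mem_filter] at hx
    obtain ⟨hx1, hx2⟩ := hx
    push Not at hx2
    obtain ⟨j, k, hjk, hP⟩ := hx2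
    rw [mem_biUnion]
    exact ⟨(j, k), mem_offDiag.2 ⟨mem_univ _, mem_univ _, hjk⟩, mem_filter.2 ⟨hx1, hP⟩⟩
  have h4 := le_trans (card_le_card hbad) card_biUnion_le
  have h5 : 2 * r ^ 2 * ∑ p ∈ (univ : Finset (Fin r)).offDiag,
      ((Fintype.piFinset A).filter (fun x => P (x p.1) (x p.2))).card ≤ r ^ 2 * Z := by
    rw [mul_sum]
    refine le_trans (sum_le_card_nsmul _ _ Z (fun p hp => h1 p.1 p.2 (mem_offDiag.1 hp).2.2)) ?_
    rw [smul_eq_mul]
    refine Nat.mul_le_mul_right _ ?_
    rw [offDiag_card, card_univ, Fintype.card_fin, sq]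
    exact Nat.sub_le _ _
  have h6 := card_filter_add_card_filter_not (s := Fintype.piFinset A)
    (fun x => ∀ j k, j ≠ k → ¬ P (x j) (x k))
  rw [Fintype.card_piFinset] at h6
  rcases Nat.eq_zero_or_pos r with hr | hr
  · subst hr
    have hz : Z = 1 := by simp [hZ]
    have : ((Fintype.piFinset A).filter (fun x => ¬ ∀ j k, j ≠ k → ¬ P (x j) (x k))).card = 0 := by
      rw [card_eq_zero, filter_eq_empty_iff]
      intro x _ h
      exact h (fun j => j.elim0)
    omega
  · have hr2 : 0 < r ^ 2 := by positivity
    have h7 : r ^ 2 * (2 * ((Fintype.piFinset A).filter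
        (fun x => ¬ ∀ j k, j ≠ k → ¬ P (x j) (x k))).card) ≤ r ^ 2 * Z := by
      refine le_trans ?_ h5
      calc r ^ 2 * (2 * ((Fintype.piFinset A).filter
            (fun x => ¬ ∀ j k, j ≠ k → ¬ P (x j) (x k))).card)
          = 2 * r ^ 2 * ((Fintype.piFinset A).filter
            (fun x => ¬ ∀ j k, j ≠ k → ¬ P (x j) (x k))).card := by ring
        _ ≤ _ := Nat.mul_le_mul_left _ h4
    have h8 := Nat.le_of_mul_le_mul_left h7 hr2
    omega

end Tuples

end Q127.Sep
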