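import Mathlib

/-!
# Separation choice number and adaptable choice number of hypergraphs: definitions
-/

set_option autoImplicit false

namespace Q127.Sep

variable {V : Type*}

/-- Every edge has exactly `r` vertices. -/
def Uniform (r : ℕ) (H : Finset (Finset V)) : Prop := ∀ e ∈ H, e.card = r

/-- Any two distinct vertices lie in at most one common edge. -/
def Linear (H : Finset (Finset V)) : Prop :=
  ∀ u v : V, u ≠ v → ∀ e ∈ H, ∀ e' ∈ H, u ∈ e → v ∈ e → u ∈ e' → v ∈ e' → e = e'

/-- The average degree `r |E| / |V|`. -/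
noncomputable def averageDegree [Fintype V] (r : ℕ) (H : Finset (Finset V)) : ℝ :=
  (r : ℝ) * (H.card : ℝ) / (Fintype.card V : ℝ)

/-- The lists of two distinct vertices in a common edge have at most one common colour. -/
def Separated (H : Finset (Finset V)) (L : V → Finset ℕ) : Prop :=
  ∀ e ∈ H, ∀ u ∈ e, ∀ v ∈ e, u ≠ v → (L u ∩ L v).card ≤ 1

/-- No edge has all of its vertices in one colour. -/
def Proper (H : Finset (Finset V)) (φ : V → ℕ) : Prop :=
  ∀ e ∈ H, ¬ ∃ c, ∀ v ∈ e, φ v = c

/-- No edge `e` has all of its vertices in the colour `f e`. -/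
def Adapted (H : Finset (Finset V)) (f : Finset V → ℕ) (φ : V → ℕ) : Prop :=
  ∀ e ∈ H, ¬ ∀ v ∈ e, φ v = f e

/-- The separation choice number. -/
noncomputable def chSep (H : Finset (Finset V)) : ℕ :=
  sInf {k | ∀ L : V → Finset ℕ, (∀ v, k ≤ (L v).card) → Separated H L →
    ∃ φ : V → ℕ, (∀ v, φ v ∈ L v) ∧ Proper H φ}

/-- The adaptable choice number. -/
noncomputable def chAd (H : Finset (Finset V)) : ℕ :=
  sInf {k | ∀ L : V → Finset ℕ, (∀ v, k ≤ (L v).card) → ∀ f : Finset V → ℕ,
    ∃ φ : V → ℕ, (∀ v, φ v ∈ L v) ∧ Adapted H f φ}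

end Q127.Sep
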