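import Pool.Agent.Q127.Sep.Defs

/-!
# Locally sparse linear hypergraphs whose shadow has no large independent set

If every set of vertices that meets every edge in at most one vertex has at most `α` elements, and
every set `S` of vertices with `|S|² ≤ 2 α n` contains at most `|S| / 2` edges, then the separation
choice number is at most `3`.
-/

set_option autoImplicit false

namespace Q127.Sep

open Finset

variable {V : Type*} [Fintype V] [DecidableEq V]

/-- Sets of size at least `m` with pairwise intersections of size at most `α`, where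
`m² > 2 α n`: there are at most `2 n / m` of them. -/
theorem few_big_sets {C : Type*} [DecidableEq C] (A : C → Finset V) (B : Finset C) (m α : ℕ)
    (hm : ∀ c ∈ B, m ≤ (A c).card)
    (hα : ∀ c ∈ B, ∀ c' ∈ B, c ≠ c' → (A c ∩ A c').card ≤ α)
    (hbig : 2 * α * Fintype.card V < m * m) : B.card * m ≤ 2 * Fintype.card V := by
  by_contra hcon
  push Not at hcon
  set n := Fintype.card V with hn
  have hm0 : 0 < m := by
    rcases Nat.eq_zero_or_pos m with h | h
    · subst h; simp at hbig
    · exact h
  -- a subfamily of the minimal size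
  set N := 2 * n / m + 1 with hN
  have hN1 : 2 * n < N * m := by
    rw [hN, add_mul, one_mul]
    exact Nat.lt_div_mul_add hm0
  have hN2 : (N - 1) * m ≤ 2 * n := by
    rw [hN, Nat.add_sub_cancel]
    exact Nat.div_mul_le_self _ _
  have hNB : N ≤ B.card := by
    by_contra h
    push Not at h
    have : B.card * m ≤ (N - 1) * m := Nat.mul_le_mul_right _ (by omega)
    omega
  obtain ⟨B', hB'B, hB'⟩ := exists_subset_card_eq hNB
  -- double counting
  have h1 : N * m ≤ ∑ c ∈ B', (A c).card := by
    rw [← hB', ← smul_eq_mul]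
    exact card_nsmul_le_sum B' _ m (fun c hc => hm c (hB'B hc))
  have h2 : ∑ c ∈ B', (A c).card = ∑ v : V, (B'.filter (fun c => v ∈ A c)).card := by
    simp_rw [card_eq_sum_ones, sum_filter]
    rw [sum_comm]
    refine sum_congr rfl (fun c _ => ?_)
    rw [← sum_filter]
    congr 1
    ext v
    simp
  have h3 : ∑ p ∈ B'.offDiag, (A p.1 ∩ A p.2).card
      = ∑ v : V, (B'.filter (fun c => v ∈ A c)).offDiag.card := by
    simp_rw [card_eq_sum_ones]
    have e1 : ∀ p ∈ B'.offDiag, ∑ x ∈ A p.1 ∩ A p.2, (1 : ℕ)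
        = ∑ v : V, if v ∈ A p.1 ∧ v ∈ A p.2 then 1 else 0 := by
      intro p _
      rw [← sum_filter]
      congr 1
      ext v
      simp
    rw [sum_congr rfl e1, sum_comm]
    refine sum_congr rfl (fun v _ => ?_)
    rw [← sum_filter]
    congr 1
    ext p
    simp only [mem_filter, mem_offDiag]
    tauto
  have h4 : ∑ p ∈ B'.offDiag, (A p.1 ∩ A p.2).card ≤ (N * N - N) * α := by
    have : B'.offDiag.card = N * N - N := by rw [offDiag_card, hB']
    rw [← this, ← smul_eq_mul]
    refine sum_le_card_nsmul _ _ _ (fun p hp => ?_)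
    rw [mem_offDiag] at hp
    exact hα _ (hB'B hp.1) _ (hB'B hp.2.1) hp.2.2
  have h5 : 2 * ∑ v : V, (B'.filter (fun c => v ∈ A c)).card ≤
      2 * n + ∑ v : V, (B'.filter (fun c => v ∈ A c)).offDiag.card := by
    rw [mul_sum, hn, ← card_univ, mul_comm 2 (univ : Finset V).card, ← smul_eq_mul,
      ← sum_const, ← sum_add_distrib]
    refine sum_le_sum (fun v _ => ?_)
    rw [offDiag_card]
    generalize (B'.filter (fun c => v ∈ A c)).card = x
    rcases x with _ | _ | x
    · simp
    · simp
    · have : (x + 1 + 1) * (x + 1 + 1) - (x + 1 + 1) = (x + 1 + 1) * (x + 1) := by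
        rw [Nat.mul_add (x + 1 + 1) (x + 1) 1]
        omega
      rw [this]
      nlinarith
  have hNpos : 1 ≤ N := by
    rw [hN]
    exact Nat.le_add_left 1 _
  obtain ⟨k, hk⟩ : ∃ k, N = k + 1 := ⟨N - 1, by omega⟩
  rw [hk] at h1 hN1 hN2 h4
  have h6 : (k + 1) * (k + 1) - (k + 1) = (k + 1) * k := by
    rw [Nat.mul_add (k + 1) k 1]
    omega
  rw [h6] at h4
  simp only [Nat.add_sub_cancel] at hN2
  -- conclusion
  have h7 : 2 * ((k + 1) * m) ≤ 2 * n + (k + 1) * k * α := by
    rw [h2] at h1
    rw [h3] at h4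
    omega
  have h8 : (k + 1) * m < (k + 1) * (k * α) := by nlinarith
  have h9 : m < k * α := Nat.lt_of_mul_lt_mul_left h8
  have h10 : m * m < k * α * m := Nat.mul_lt_mul_of_pos_right h9 hm0
  have h11 : k * α * m ≤ 2 * α * n := by nlinarith
  omega

theorem sep_choosable (H : Finset (Finset V)) (α : ℕ)
    (h1 : ∀ I : Finset V, (∀ e ∈ H, (e ∩ I).card ≤ 1) → I.card ≤ α)
    (h2 : ∀ S : Finset V, S.card * S.card ≤ 2 * α * Fintype.card V →
      2 * (H.filter (fun e => e ⊆ S)).card ≤ S.card)
    (L₀ : V → Finset ℕ) (hL₀ : ∀ v, 3 ≤ (L₀ v).card) (hsep₀ : Separated H L₀) :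
    ∃ φ : V → ℕ, (∀ v, φ v ∈ L₀ v) ∧ Proper H φ := by
  classical
  -- lists of size exactly three
  choose L hLL₀ hL using fun v => exists_subset_card_eq (hL₀ v)
  have hsep : Separated H L := fun e he u hu v hv huv =>
    le_trans (card_le_card (inter_subset_inter (hLL₀ u) (hLL₀ v))) (hsep₀ e he u hu v hv huv)
  set A : ℕ → Finset V := fun c => univ.filter (fun v => c ∈ L v) with hA
  have hmemA : ∀ c v, v ∈ A c ↔ c ∈ L v := fun c v => by simp [hA]
  have hinter : ∀ c c', c ≠ c' → (A c ∩ A c').card ≤ α := by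
    intro c c' hcc
    apply h1
    intro e he
    by_contra hcon
    push Not at hcon
    obtain ⟨u, hu, v, hv, huv⟩ := one_lt_card.1 hcon
    rw [mem_inter, mem_inter, hmemA, hmemA] at hu hv
    have hlt : 1 < (L u ∩ L v).card :=
      one_lt_card.2 ⟨c, mem_inter.2 ⟨hu.2.1, hv.2.1⟩, c', mem_inter.2 ⟨hu.2.2, hv.2.2⟩, hcc⟩
    exact absurd (hsep e he u hu.1 v hv.1 huv) (by omega)
  -- the most popular colour
  have hmax : ∀ v, ∃ c ∈ L v, ∀ c' ∈ L v, (A c').card ≤ (A c).card := fun v =>
    exists_max_image (L v) (fun c => (A c).card) (by rw [← card_pos, hL v]; norm_num)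
  choose cm hcm hcmax using hmax
  set L' : V → Finset ℕ := fun v => (L v).erase (cm v) with hL'
  have hL'card : ∀ v, (L' v).card = 2 := by
    intro v
    rw [hL', card_erase_of_mem (hcm v), hL v]
  set A' : ℕ → Finset V := fun c => univ.filter (fun v => c ∈ L' v) with hA'
  have hmemA' : ∀ c v, v ∈ A' c ↔ c ∈ L' v := fun c v => by simp [hA']
  have hA'card : ∀ c, (A' c).card * (A' c).card ≤ 2 * α * Fintype.card V := by
    intro c
    have hsub : A' c ⊆ A c := by
      intro v hv
      rw [hmemA'] at hv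
      rw [hmemA]
      exact mem_of_mem_erase hv
    have hle : (A' c).card ≤ (A c).card := card_le_card hsub
    by_cases hbig : 2 * α * Fintype.card V < (A c).card * (A c).card
    · set B : Finset ℕ := ((univ : Finset V).image cm).filter
        (fun c' => c' ≠ c ∧ (A c).card ≤ (A c').card) with hB
      have hBcard : B.card * (A c).card ≤ 2 * Fintype.card V := by
        refine few_big_sets A B (A c).card α ?_ ?_ hbig
        · intro c' hc'
          exact (mem_filter.1 hc').2.2
        · intro c' _ c'' _ hne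
          exact hinter c' c'' hne
      have hcover : A' c ⊆ B.biUnion (fun c' => A c ∩ A c') := by
        intro v hv
        have hv' := (hmemA' c v).1 hv
        rw [mem_biUnion]
        refine ⟨cm v, ?_, ?_⟩
        · rw [hB, mem_filter]
          exact ⟨mem_image_of_mem _ (mem_univ v), (ne_of_mem_erase hv').symm,
            hcmax v c (mem_of_mem_erase hv')⟩
        · rw [mem_inter, hmemA, hmemA]
          exact ⟨mem_of_mem_erase hv', hcm v⟩
      have h3 : (A' c).card ≤ B.card * α := by
        refine le_trans (card_le_card hcover) (card_biUnion_le_card_mul _ _ _ (fun c' hc' => ?_))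
        exact hinter c c' (mem_filter.1 hc').2.1.symm
      calc (A' c).card * (A' c).card ≤ (B.card * α) * (A c).card := Nat.mul_le_mul h3 hle
        _ = α * (B.card * (A c).card) := by ring
        _ ≤ α * (2 * Fintype.card V) := Nat.mul_le_mul_left _ hBcard
        _ = 2 * α * Fintype.card V := by ring
    · push Not at hbig
      exact le_trans (Nat.mul_le_mul hle hle) hbig
  -- dangerous pairs of an edge and a colour
  set U : Finset ℕ := (univ : Finset V).biUnion L with hU
  set DE : Finset (Finset V × ℕ) := (H ×ˢ U).filter (fun x => x.1 ⊆ A' x.2) with hDE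
  have hall : ∀ F : Finset {x // x ∈ DE}, F.card ≤ (F.biUnion (fun x => x.1.1)).card := by
    intro F
    set W : Finset V := F.biUnion (fun x => x.1.1) with hW
    set Fc : ℕ → Finset (Finset V) := fun c => H.filter (fun e => e ⊆ W ∩ A' c) with hFc
    have hFc2 : ∀ c, 2 * (Fc c).card ≤ (W ∩ A' c).card := by
      intro c
      refine h2 (W ∩ A' c) ?_
      have : (W ∩ A' c).card ≤ (A' c).card := card_le_card inter_subset_right
      exact le_trans (Nat.mul_le_mul this this) (hA'card c)
    have hF : F.card ≤ ∑ c ∈ U, (Fc c).card := by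
      rw [← card_map (Function.Embedding.subtype _), ← card_sigma]
      refine card_le_card_of_injOn (fun x => ⟨x.2, x.1⟩) ?_ ?_
      · intro x hx
        rw [coe_map, Set.mem_image] at hx
        obtain ⟨y, hy, rfl⟩ := hx
        rw [mem_coe] at hy
        have hyDE : y.1 ∈ (H ×ˢ U).filter (fun x => x.1 ⊆ A' x.2) := y.2
        rw [mem_filter, mem_product] at hyDE
        rw [mem_coe, mem_sigma]
        refine ⟨hyDE.1.2, ?_⟩
        rw [hFc, mem_filter]
        refine ⟨hyDE.1.1, subset_inter ?_ hyDE.2⟩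
        exact subset_biUnion_of_mem (fun x : {x // x ∈ DE} => x.1.1) hy
      · intro x _ y _ hxy
        simp only [Sigma.mk.injEq, heq_eq_eq] at hxy
        exact Prod.ext hxy.2 hxy.1
    have hsum : ∑ c ∈ U, (W ∩ A' c).card ≤ 2 * W.card := by
      have e1 : ∀ c ∈ U, (W ∩ A' c).card = ∑ v ∈ W, if c ∈ L' v then 1 else 0 := by
        intro c _
        rw [← sum_filter, ← card_eq_sum_ones]
        congr 1
        ext v
        rw [mem_inter, hmemA', mem_filter]
      rw [sum_congr rfl e1, sum_comm, mul_comm, ← smul_eq_mul]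
      refine sum_le_card_nsmul _ _ _ (fun v _ => ?_)
      rw [← sum_filter, ← card_eq_sum_ones, ← hL'card v]
      exact card_le_card (fun c hc => (mem_filter.1 hc).2)
    have h5 : 2 * ∑ c ∈ U, (Fc c).card ≤ ∑ c ∈ U, (W ∩ A' c).card := by
      rw [mul_sum]
      exact sum_le_sum (fun c _ => hFc2 c)
    omega
  obtain ⟨a, ha_inj, ha⟩ := (all_card_le_biUnion_card_iff_exists_injective
    (fun x : {x // x ∈ DE} => x.1.1)).1 hall
  -- the colouring
  have hcol : ∀ v, ∃ c ∈ L' v, ∀ x : {x // x ∈ DE}, a x = v → c ≠ x.1.2 := by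
    intro v
    by_cases hx : ∃ x : {x // x ∈ DE}, a x = v
    · obtain ⟨x, hx⟩ := hx
      have hne : ((L' v).erase x.1.2).Nonempty := by
        rw [← card_pos]
        have := pred_card_le_card_erase (s := L' v) (a := x.1.2)
        rw [hL'card v] at this
        omega
      obtain ⟨c, hc⟩ := hne
      refine ⟨c, mem_of_mem_erase hc, fun y hy => ?_⟩
      have : y = x := ha_inj (hy.trans hx.symm)
      rw [this]
      exact ne_of_mem_erase hc
    · push Not at hx
      have hne : (L' v).Nonempty := by rw [← card_pos, hL'card v]; norm_num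
      obtain ⟨c, hc⟩ := hne
      exact ⟨c, hc, fun x hx' => absurd hx' (hx x)⟩
  choose φ hφ hφ2 using hcol
  refine ⟨φ, fun v => hLL₀ v (mem_of_mem_erase (hφ v)), ?_⟩
  rintro e he ⟨c, hc⟩
  -- the edge is not empty
  have hene : e.Nonempty := by
    by_contra hempty
    rw [not_nonempty_iff_eq_empty] at hempty
    subst hempty
    have h0 := h2 ∅ (by simp)
    have : 0 < (H.filter (fun e => e ⊆ ∅)).card := card_pos.2 ⟨∅, mem_filter.2 ⟨he, subset_rfl⟩⟩
    rw [card_empty] at h0
    omega
  obtain ⟨v₀, hv₀⟩ := hene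
  have hx : (e, c) ∈ DE := by
    rw [hDE, mem_filter, mem_product]
    refine ⟨⟨he, ?_⟩, ?_⟩
    · rw [hU, mem_biUnion]
      refine ⟨v₀, mem_univ _, ?_⟩
      rw [← hc v₀ hv₀]
      exact mem_of_mem_erase (hφ v₀)
    · intro v hv
      rw [hmemA', ← hc v hv]
      exact hφ v
  have h6 := ha ⟨(e, c), hx⟩
  exact hφ2 _ ⟨(e, c), hx⟩ rfl (hc _ h6)

end Q127.Sep
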