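import Pool.Agent.Q127.Sep.Rand

/-!
# Existence of locally sparse linear hypergraphs whose shadow has no large independent set
-/

set_option autoImplicit false
set_option linter.unusedSectionVars false

namespace Q127.Sep

open Finset

theorem sum_pow_card (n : ℕ) (x : ℝ) :
    ∑ S : Finset (Fin n), x ^ S.card = (1 + x) ^ n := by
  have h := Fintype.sum_pow_mul_eq_add_pow (Fin n) x 1
  simp only [one_pow, mul_one, Fintype.card_fin] at h
  rw [h, add_comm]

theorem small_ratio (q r s : ℕ) (hr : 30 ≤ r) (hq : 2 ^ 21 ≤ q)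
    (hs : s * s ≤ 2 * q ^ 3 * q ^ 4) (hsn : s ≤ q ^ 4) :
    ((4 * q ^ 6 : ℕ) : ℝ) * ((s : ℝ) / ((q ^ 4 : ℕ) : ℝ)) ^ r ≤ (1 / (4 * ((q ^ 4 : ℕ) : ℝ))) ^ 2 := by
  have hq' : ((2 : ℝ) ^ 21) ≤ (q : ℝ) := by exact_mod_cast hq
  have hq0 : (0 : ℝ) < (q : ℝ) := lt_of_lt_of_le (by positivity) hq'
  push_cast
  have h1 : (s : ℝ) / (q : ℝ) ^ 4 ≤ 1 := by
    rw [div_le_one (by positivity)]
    exact_mod_cast hsn
  have h0 : 0 ≤ (s : ℝ) / (q : ℝ) ^ 4 := by positivity
  have h2 : ((s : ℝ) / (q : ℝ) ^ 4) ^ r ≤ ((s : ℝ) / (q : ℝ) ^ 4) ^ 30 :=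
    pow_le_pow_of_le_one h0 h1 hr
  have h3 : ((s : ℝ) / (q : ℝ) ^ 4) ^ 2 ≤ 2 / (q : ℝ) := by
    have hs' : (s : ℝ) * s ≤ 2 * (q : ℝ) ^ 3 * (q : ℝ) ^ 4 := by exact_mod_cast hs
    rw [div_pow, div_le_div_iff₀ (by positivity) hq0]
    nlinarith
  have h4 : ((s : ℝ) / (q : ℝ) ^ 4) ^ 30 ≤ (2 / (q : ℝ)) ^ 15 := by
    calc ((s : ℝ) / (q : ℝ) ^ 4) ^ 30 = (((s : ℝ) / (q : ℝ) ^ 4) ^ 2) ^ 15 := by
          rw [← pow_mul]
      _ ≤ (2 / (q : ℝ)) ^ 15 := pow_le_pow_left₀ (by positivity) h3 15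
  calc 4 * (q : ℝ) ^ 6 * ((s : ℝ) / (q : ℝ) ^ 4) ^ r
      ≤ 4 * (q : ℝ) ^ 6 * (2 / (q : ℝ)) ^ 15 := by
        exact mul_le_mul_of_nonneg_left (le_trans h2 h4) (by positivity)
    _ = 2 ^ 17 / (q : ℝ) ^ 9 := by
        rw [div_pow]
        field_simp
        norm_num
    _ ≤ (1 / (4 * (q : ℝ) ^ 4)) ^ 2 := by
        rw [div_pow, one_pow, div_le_div_iff₀ (by positivity) (by positivity)]
        have : (q : ℝ) ^ 9 = (q : ℝ) ^ 8 * q := by ring
        rw [this]
        have h5 : (0 : ℝ) < (q : ℝ) ^ 8 := by positivity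
        nlinarith

theorem first_sum_small (n : ℕ) (hn : 1 ≤ n) : (2 : ℝ) ^ n * Real.exp (-(2 * n)) ≤ 1 / 3 := by
  have h1 : Real.exp (-(2 * (n : ℝ))) = (Real.exp (-2)) ^ n := by
    rw [← Real.exp_nat_mul]
    congr 1
    ring
  rw [h1, ← mul_pow]
  have h2 : 2 * Real.exp (-2) ≤ 1 / 3 := by
    have h3 : Real.exp (-2) * (Real.exp 1 * Real.exp 1) = 1 := by
      rw [← Real.exp_add, ← Real.exp_add]
      norm_num
    have h4 := Real.exp_one_gt_d9
    have h5 : (7 : ℝ) ≤ Real.exp 1 * Real.exp 1 := by nlinarith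
    have h6 : 0 < Real.exp (-2) := Real.exp_pos _
    nlinarith
  have h7 : 0 ≤ 2 * Real.exp (-2) := by positivity
  calc (2 * Real.exp (-2)) ^ n ≤ (2 * Real.exp (-2)) ^ 1 :=
        pow_le_pow_of_le_one h7 (le_trans h2 (by norm_num)) hn
    _ ≤ 1 / 3 := by rw [pow_one]; exact h2

theorem second_sum_small (n : ℕ) (hn : 2 ≤ n) :
    (1 / (4 * (n : ℝ))) * (1 + 1 / (4 * (n : ℝ))) ^ n ≤ 3 / 8 := by
  have hn' : (2 : ℝ) ≤ n := by exact_mod_cast hn
  have hn0 : (0 : ℝ) < n := by linarith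
  have h1 : (1 + 1 / (4 * (n : ℝ))) ^ n ≤ Real.exp 1 := by
    calc (1 + 1 / (4 * (n : ℝ))) ^ n ≤ (Real.exp (1 / (4 * (n : ℝ)))) ^ n := by
          apply pow_le_pow_left₀ (by positivity)
          rw [add_comm]
          exact Real.add_one_le_exp _
      _ = Real.exp (1 / 4) := by
          rw [← Real.exp_nat_mul]
          congr 1
          field_simp
      _ ≤ Real.exp 1 := Real.exp_le_exp.2 (by norm_num)
  have h2 := Real.exp_one_lt_d9
  have h3 : 1 / (4 * (n : ℝ)) ≤ 1 / 8 := by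
    rw [div_le_div_iff₀ (by positivity) (by norm_num)]
    linarith
  have h4 : 0 ≤ 1 / (4 * (n : ℝ)) := by positivity
  calc (1 / (4 * (n : ℝ))) * (1 + 1 / (4 * (n : ℝ))) ^ n ≤ (1 / 8) * Real.exp 1 :=
        mul_le_mul h3 h1 (by positivity) (by norm_num)
    _ ≤ 3 / 8 := by nlinarith

theorem exists_hypergraph (r q : ℕ) (hr : 30 ≤ r) (hq1 : 10 * r ^ 3 ≤ q) (hq2 : 2 ^ 21 ≤ q) :
    ∃ H : Finset (Finset (Fin (q ^ 4))),
      (∀ e ∈ H, e.card = r) ∧
      (∀ e ∈ H, ∀ e' ∈ H, e ≠ e' → (e ∩ e').card ≤ 1) ∧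
      (∀ I : Finset (Fin (q ^ 4)), Indep H I → I.card < q ^ 3) ∧
      (∀ S : Finset (Fin (q ^ 4)), S.card * S.card ≤ 2 * q ^ 3 * q ^ 4 →
        2 * (H.filter (fun e => e ⊆ S)).card ≤ S.card) := by
  classical
  set n := q ^ 4 with hn
  set N := 4 * q ^ 6 with hN
  have hq0 : 0 < q := lt_of_lt_of_le (by norm_num) hq2
  have hn2 : 2 ≤ n := by
    calc 2 ≤ q := le_trans (by norm_num) hq2
      _ ≤ q ^ 4 := Nat.le_self_pow (by norm_num) q
  have hnpos : 0 < n := by omega
  have hn' : (0 : ℝ) < (n : ℝ) := by exact_mod_cast hnpos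
  have hrq : r ≤ q := by
    calc r ≤ r ^ 3 := Nat.le_self_pow (by norm_num) r
      _ ≤ 10 * r ^ 3 := by omega
      _ ≤ q := hq1
  set T := Fin r → Fin n with hT
  have hcardT : Fintype.card T = n ^ r := by simp [hT]
  set τ : ℝ := (Fintype.card T : ℝ) with hτ
  have hτpos : 0 < τ := by
    rw [hτ, hcardT]
    positivity
  -- the conditions for `many_good`
  have c1 : 2 * r ^ 2 ≤ q ^ 3 := by
    calc 2 * r ^ 2 ≤ 10 * r ^ 3 := by nlinarith [Nat.pos_of_ne_zero (show r ≠ 0 by omega)]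
      _ ≤ q := hq1
      _ ≤ q ^ 3 := Nat.le_self_pow (by norm_num) q
  have hq46 : q ^ 4 ≤ q ^ 6 := Nat.pow_le_pow_right hq0 (by norm_num)
  have c2 : 2 * r ^ 2 * (n + r * N) ≤ q ^ 3 * n := by
    have e1 : n + r * N ≤ (5 * r) * q ^ 6 := by
      rw [hn, hN]
      nlinarith
    calc 2 * r ^ 2 * (n + r * N) ≤ 2 * r ^ 2 * ((5 * r) * q ^ 6) := Nat.mul_le_mul_left _ e1
      _ = (10 * r ^ 3) * q ^ 6 := by ring
      _ ≤ q * q ^ 6 := Nat.mul_le_mul_right _ hq1
      _ = q ^ 3 * n := by rw [hn]; ring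
  have c3 : 2 * r ^ 2 * (n + r * r * N) ≤ n * n := by
    have e0 : q ^ 6 ≤ r * r * q ^ 6 :=
      Nat.le_mul_of_pos_left _ (Nat.mul_pos (by omega) (by omega))
    have e1 : n + r * r * N ≤ (5 * (r * r)) * q ^ 6 := by
      rw [hn, hN]
      calc q ^ 4 + r * r * (4 * q ^ 6) ≤ r * r * q ^ 6 + r * r * (4 * q ^ 6) :=
            Nat.add_le_add_right (le_trans hq46 e0) _
        _ = (5 * (r * r)) * q ^ 6 := by ring
    calc 2 * r ^ 2 * (n + r * r * N) ≤ 2 * r ^ 2 * ((5 * (r * r)) * q ^ 6) :=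
          Nat.mul_le_mul_left _ e1
      _ = (10 * r ^ 3) * r * q ^ 6 := by ring
      _ ≤ q * q * q ^ 6 := Nat.mul_le_mul_right _ (Nat.mul_le_mul hq1 hrq)
      _ = n * n := by rw [hn]; ring
  -- the first bad event
  set σ : ℝ := 1 - 1 / (2 * (q : ℝ) ^ 2) with hσ
  have hqR : (0 : ℝ) < (q : ℝ) := by exact_mod_cast hq0
  have hqR1 : (1 : ℝ) ≤ (q : ℝ) := by exact_mod_cast hq0
  have hσ0 : 0 ≤ σ := by
    rw [hσ, sub_nonneg, div_le_one (by positivity)]
    nlinarith
  have ev1 : ∀ I : Finset (Fin n), I.card = q ^ 3 →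
      (((seqs T N).filter (fun l => Indep (acc l) I)).card : ℝ) ≤ τ ^ N * Real.exp (-(2 * n)) := by
    intro I hI
    have h1 := card_prefix_le (T := T) (fun l => Indep (acc l) I) σ hσ0 N
      (fun x l h => indep_tail I x l h) (by
        intro l hl hIl
        have hgood := many_good (by omega) (acc l) (acc_uniform l) I hIl n (q ^ 3) N
          (by simp) hI (le_trans (card_acc_le l) hl.le) (by positivity) hnpos c1 c2 c3
        have hdisj : Disjoint ((univ : Finset T).filter (fun x => Indep (acc (x :: l)) I))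
            ((univ : Finset T).filter (fun x => Ok (acc l) x ∧ 1 < (img x ∩ I).card)) := by
          rw [disjoint_left]
          intro x hx hx'
          rw [mem_filter] at hx hx'
          exact not_indep_of_ok I x l hx'.2.1 hx'.2.2 hx.2
        have hsum : ((univ : Finset T).filter (fun x => Indep (acc (x :: l)) I)).card +
            ((univ : Finset T).filter (fun x => Ok (acc l) x ∧ 1 < (img x ∩ I).card)).card
              ≤ n ^ r := by
          rw [← card_union_of_disjoint hdisj, ← hcardT, ← card_univ]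
          exact card_le_card (subset_univ _)
        set b := ((univ : Finset T).filter (fun x => Indep (acc (x :: l)) I)).card
        set g := ((univ : Finset T).filter (fun x => Ok (acc l) x ∧ 1 < (img x ∩ I).card)).card
        have hgood' : ((q : ℝ) ^ 3 * (q : ℝ) ^ 3 * (n : ℝ) ^ (r - 2)) ≤ 2 * (g : ℝ) := by
          exact_mod_cast hgood
        have hsum' : (b : ℝ) + (g : ℝ) ≤ (n : ℝ) ^ r := by exact_mod_cast hsum
        have hnr : (n : ℝ) ^ r = (q : ℝ) ^ 8 * (n : ℝ) ^ (r - 2) := by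
          have : r = 2 + (r - 2) := by omega
          conv_lhs => rw [this]
          rw [pow_add, hn]
          push_cast
          ring
        rw [hcardT]
        push_cast
        rw [hσ, sub_mul, one_mul, hnr]
        rw [hnr] at hsum'
        have e2 : 1 / (2 * (q : ℝ) ^ 2) * ((q : ℝ) ^ 8 * (n : ℝ) ^ (r - 2)) =
            (q : ℝ) ^ 3 * (q : ℝ) ^ 3 * (n : ℝ) ^ (r - 2) / 2 := by
          field_simp
        rw [e2]
        linarith) N le_rfl
    refine le_trans h1 (mul_le_mul_of_nonneg_left ?_ (by positivity))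
    calc σ ^ N ≤ (Real.exp (-(1 / (2 * (q : ℝ) ^ 2)))) ^ N := by
          apply pow_le_pow_left₀ hσ0
          rw [hσ]
          have := Real.add_one_le_exp (-(1 / (2 * (q : ℝ) ^ 2)))
          linarith
      _ = Real.exp (-(2 * n)) := by
          rw [← Real.exp_nat_mul]
          congr 1
          rw [hN, hn]
          push_cast
          field_simp
          norm_num
  -- the second bad event
  set η : ℝ := 1 / (4 * (n : ℝ)) with hη
  have hη0 : 0 ≤ η := by positivity
  have hη1 : η ≤ 1 := by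
    rw [hη, div_le_one (by positivity)]
    have : (2 : ℝ) ≤ n := by exact_mod_cast hn2
    linarith
  have ev2 : ∀ S : Finset (Fin n), S.card * S.card ≤ 2 * q ^ 3 * q ^ 4 →
      (((seqs T N).filter
        (fun l => S.card / 2 + 1 ≤ l.countP (fun x => decide (img x ⊆ S)))).card : ℝ) ≤
        τ ^ N * (η * η ^ S.card) := by
    intro S hS
    have hcardp : ((univ : Finset T).filter (fun x => img x ⊆ S)).card = S.card ^ r := by
      have : (univ : Finset T).filter (fun x => img x ⊆ S) = Fintype.piFinset (fun _ => S) := by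
        ext x
        rw [mem_filter, Fintype.mem_piFinset]
        constructor
        · intro h i
          exact h.2 (mem_image_of_mem _ (mem_univ i))
        · intro h
          refine ⟨mem_univ _, ?_⟩
          intro v hv
          rw [img, mem_image] at hv
          obtain ⟨i, _, rfl⟩ := hv
          exact h i
      rw [this, Fintype.card_piFinset]
      simp
    have h1 := card_countP_le (T := T) (fun x => img x ⊆ S)
      (((S.card : ℝ) / (n : ℝ)) ^ r) (by positivity) (by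
        rw [hcardp, hcardT, div_pow]
        push_cast
        rw [div_mul_cancel₀ _ (by positivity)]) N (S.card / 2 + 1)
    refine le_trans h1 (mul_le_mul_of_nonneg_left ?_ (by positivity))
    have hSn : S.card ≤ n := by
      have := card_le_univ S
      simpa using this
    have h2 : ((N : ℕ) : ℝ) * ((S.card : ℝ) / (n : ℝ)) ^ r ≤ η ^ 2 :=
      small_ratio q r S.card hr hq2 hS hSn
    calc ((N : ℝ) * ((S.card : ℝ) / (n : ℝ)) ^ r) ^ (S.card / 2 + 1) ≤
          (η ^ 2) ^ (S.card / 2 + 1) := pow_le_pow_left₀ (by positivity) h2 _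
      _ = η ^ (2 * (S.card / 2 + 1)) := by rw [← pow_mul]
      _ ≤ η ^ (S.card + 1) := pow_le_pow_of_le_one hη0 hη1 (by omega)
      _ = η * η ^ S.card := by ring
  -- the union bound
  have hex : ∃ l ∈ seqs T N, (∀ I : Finset (Fin n), I.card = q ^ 3 → ¬ Indep (acc l) I) ∧
      (∀ S : Finset (Fin n), S.card * S.card ≤ 2 * q ^ 3 * q ^ 4 →
        ¬ S.card / 2 + 1 ≤ l.countP (fun x => decide (img x ⊆ S))) := by
    by_contra hcon
    have hsub : seqs T N ⊆
        ((univ : Finset (Finset (Fin n))).filter (fun I => I.card = q ^ 3)).biUnion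
          (fun I => (seqs T N).filter (fun l => Indep (acc l) I)) ∪
        ((univ : Finset (Finset (Fin n))).filter
          (fun S => S.card * S.card ≤ 2 * q ^ 3 * q ^ 4)).biUnion
          (fun S => (seqs T N).filter
            (fun l => S.card / 2 + 1 ≤ l.countP (fun x => decide (img x ⊆ S)))) := by
      intro l hl
      rw [mem_union, mem_biUnion, mem_biUnion]
      by_contra hnot
      apply hcon
      refine ⟨l, hl, fun I hI hInd => hnot (Or.inl ⟨I, ?_, ?_⟩), fun S hS hcount =>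
        hnot (Or.inr ⟨S, ?_, ?_⟩)⟩
      · exact mem_filter.2 ⟨mem_univ _, hI⟩
      · exact mem_filter.2 ⟨hl, hInd⟩
      · exact mem_filter.2 ⟨mem_univ _, hS⟩
      · exact mem_filter.2 ⟨hl, hcount⟩
    have h1 := le_trans (card_le_card hsub) (le_trans (card_union_le _ _)
      (Nat.add_le_add card_biUnion_le card_biUnion_le))
    rw [card_seqs] at h1
    have h2 := (Nat.cast_le (α := ℝ)).2 h1
    push_cast at h2
    have h3 : ∑ I ∈ (univ : Finset (Finset (Fin n))).filter (fun I => I.card = q ^ 3),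
        (((seqs T N).filter (fun l => Indep (acc l) I)).card : ℝ) ≤
          τ ^ N * (2 ^ n * Real.exp (-(2 * n))) := by
      calc _ ≤ ∑ I ∈ (univ : Finset (Finset (Fin n))).filter (fun I => I.card = q ^ 3),
            τ ^ N * Real.exp (-(2 * n)) :=
            sum_le_sum (fun I hI => ev1 I (mem_filter.1 hI).2)
        _ ≤ ∑ I : Finset (Fin n), τ ^ N * Real.exp (-(2 * n)) :=
            sum_le_sum_of_subset_of_nonneg (filter_subset _ _) (fun _ _ _ => by positivity)
        _ = τ ^ N * (2 ^ n * Real.exp (-(2 * n))) := by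
            rw [sum_const, card_univ, Fintype.card_finset, Fintype.card_fin, nsmul_eq_mul]
            push_cast
            ring
    have h4 : ∑ S ∈ (univ : Finset (Finset (Fin n))).filter
          (fun S => S.card * S.card ≤ 2 * q ^ 3 * q ^ 4),
        (((seqs T N).filter
          (fun l => S.card / 2 + 1 ≤ l.countP (fun x => decide (img x ⊆ S)))).card : ℝ) ≤
          τ ^ N * (η * (1 + η) ^ n) := by
      calc _ ≤ ∑ S ∈ (univ : Finset (Finset (Fin n))).filter
            (fun S => S.card * S.card ≤ 2 * q ^ 3 * q ^ 4), τ ^ N * (η * η ^ S.card) :=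
            sum_le_sum (fun S hS => ev2 S (mem_filter.1 hS).2)
        _ ≤ ∑ S : Finset (Fin n), τ ^ N * (η * η ^ S.card) :=
            sum_le_sum_of_subset_of_nonneg (filter_subset _ _) (fun _ _ _ => by positivity)
        _ = τ ^ N * (η * (1 + η) ^ n) := by
            rw [← mul_sum, ← mul_sum, sum_pow_card]
    have h5 := first_sum_small n (by omega)
    have h6 : η * (1 + η) ^ n ≤ 3 / 8 := second_sum_small n hn2
    have h7 : τ ^ N ≤ τ ^ N * (1 / 3) + τ ^ N * (3 / 8) := by
      calc τ ^ N ≤ _ := h2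
        _ ≤ τ ^ N * (2 ^ n * Real.exp (-(2 * n))) + τ ^ N * (η * (1 + η) ^ n) := add_le_add h3 h4
        _ ≤ _ := add_le_add (mul_le_mul_of_nonneg_left h5 (by positivity))
            (mul_le_mul_of_nonneg_left h6 (by positivity))
    have h8 : 0 < τ ^ N := by positivity
    linarith
  obtain ⟨l, _, hl1, hl2⟩ := hex
  refine ⟨acc l, acc_uniform l, acc_linear l, ?_, ?_⟩
  · intro I hI
    by_contra hcon
    push Not at hcon
    obtain ⟨J, hJI, hJ⟩ := exists_subset_card_eq hcon
    apply hl1 J hJ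
    intro e he
    exact le_trans (card_le_card (inter_subset_inter_left hJI)) (hI e he)
  · intro S hS
    have h1 := card_acc_filter_le S l
    have h2 := hl2 S hS
    omega

end Q127.Sep
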