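import Pool.Agent.Q127.Sep.Det
import Pool.Agent.Q127.Sep.Exist

/-!
# Linear uniform hypergraphs of large average degree with separation choice number at most three
-/

set_option autoImplicit false

namespace Q127.Sep

open Finset Filter

/-- A hypergraph without large independent sets in the shadow has large average degree. -/
theorem large_degree {V : Type*} [Fintype V] [DecidableEq V] (r D a : ℕ) (hD : 0 < D)
    (H : Finset (Finset V))
    (hr : ∀ e ∈ H, e.card = r) (hI : ∀ I : Finset V, Indep H I → I.card ≤ a)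
    (hn : 2 * (a * (1 + 2 * D * r)) ≤ Fintype.card V) :
    D * Fintype.card V ≤ r * H.card := by
  classical
  by_contra hcon
  push Not at hcon
  set deg : V → ℕ := fun v => (H.filter (fun e => v ∈ e)).card with hdeg
  have hsum : ∑ v, deg v = r * H.card := by
    simp_rw [hdeg, card_eq_sum_ones, sum_filter]
    rw [sum_comm, mul_sum]
    refine sum_congr rfl (fun e he => ?_)
    rw [← sum_filter, ← card_eq_sum_ones, mul_one, ← hr e he]
    congr 1
    ext v
    simp
  set W : Finset V := univ.filter (fun v => deg v < 2 * D) with hW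
  have hWc : 2 * (univ.filter (fun v => ¬ deg v < 2 * D)).card < Fintype.card V := by
    have h1 : (univ.filter (fun v => ¬ deg v < 2 * D)).card * (2 * D) ≤ ∑ v, deg v := by
      rw [← smul_eq_mul]
      refine le_trans (card_nsmul_le_sum _ deg _ (fun v hv => ?_))
        (sum_le_sum_of_subset (subset_univ _))
      have := (mem_filter.1 hv).2
      omega
    rw [hsum] at h1
    have h2 : D * (2 * (univ.filter (fun v => ¬ deg v < 2 * D)).card) < D * Fintype.card V := by
      calc D * (2 * (univ.filter (fun v => ¬ deg v < 2 * D)).card)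
          = (univ.filter (fun v => ¬ deg v < 2 * D)).card * (2 * D) := by ring
        _ ≤ r * H.card := h1
        _ < D * Fintype.card V := hcon
    exact Nat.lt_of_mul_lt_mul_left h2
  have hW2 : Fintype.card V < 2 * W.card := by
    have := card_filter_add_card_filter_not (s := (univ : Finset V)) (fun v => deg v < 2 * D)
    rw [card_univ, ← hW] at this
    omega
  -- a maximal independent subset of `W`
  obtain ⟨X, hX, hXmax⟩ : ∃ X ∈ W.powerset.filter (fun X => Indep H X),
      ∀ Y ∈ W.powerset.filter (fun X => Indep H X), Y.card ≤ X.card := by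
    refine exists_max_image _ card ⟨∅, mem_filter.2 ⟨empty_mem_powerset _, fun e _ => by simp⟩⟩
  rw [mem_filter, mem_powerset] at hX
  have hcover : W ⊆ X ∪ X.biUnion (fun x => (H.filter (fun e => x ∈ e)).biUnion id) := by
    intro w hw
    rw [mem_union]
    by_cases hwX : w ∈ X
    · exact Or.inl hwX
    · right
      have hnot : ¬ Indep H (insert w X) := by
        intro hind
        have := hXmax (insert w X) (mem_filter.2 ⟨mem_powerset.2
          (insert_subset hw hX.1), hind⟩)
        rw [card_insert_of_notMem hwX] at this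
        omega
      unfold Indep at hnot
      push Not at hnot
      obtain ⟨e, he, hcard⟩ := hnot
      have hwe : w ∈ e := by
        by_contra hwe
        rw [inter_insert_of_notMem hwe] at hcard
        have := hX.2 e he
        omega
      have hne : (e ∩ X).Nonempty := by
        rw [inter_insert_of_mem hwe] at hcard
        have := card_insert_le w (e ∩ X)
        rw [← card_pos]
        omega
      obtain ⟨x, hx⟩ := hne
      rw [mem_inter] at hx
      rw [mem_biUnion]
      refine ⟨x, hx.2, ?_⟩
      rw [mem_biUnion]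
      exact ⟨e, mem_filter.2 ⟨he, hx.1⟩, hwe⟩
  have hle : W.card ≤ X.card + X.card * (2 * D * r) := by
    refine le_trans (card_le_card hcover) (le_trans (card_union_le _ _) ?_)
    refine Nat.add_le_add le_rfl (card_biUnion_le_card_mul _ _ _ (fun x hx => ?_))
    refine le_trans (card_biUnion_le_card_mul _ _ r (fun e he => ?_)) ?_
    · exact (hr e (mem_filter.1 he).1).le
    · exact Nat.mul_le_mul_right _ (mem_filter.1 (hX.1 hx)).2.le
  have hXa := hI X hX.2
  have h3 : X.card + X.card * (2 * D * r) ≤ a * (1 + 2 * D * r) := by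
    calc X.card + X.card * (2 * D * r) = X.card * (1 + 2 * D * r) := by ring
      _ ≤ a * (1 + 2 * D * r) := Nat.mul_le_mul_right _ hXa
  omega

/-- For every `r ≥ 30` there are linear `r`-uniform hypergraphs of arbitrarily large average degree
whose separation choice number is at most `3`. -/
theorem main (r : ℕ) (hr : 30 ≤ r) (d : ℝ) :
    ∃ (n : ℕ) (H : Finset (Finset (Fin n))), Uniform r H ∧ Linear H ∧
      d ≤ averageDegree r H ∧ chSep H ≤ 3 := by
  classical
  obtain ⟨D, hD⟩ := exists_nat_ge d
  set q := 10 * r ^ 3 + 2 ^ 21 + 2 * (1 + 2 * (D + 1) * r) with hq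
  obtain ⟨H, h1, h2, h3, h4⟩ := exists_hypergraph r q hr (by omega) (by omega)
  have hq0 : 0 < q := by omega
  refine ⟨q ^ 4, H, h1, ?_, ?_, ?_⟩
  · intro u v huv e he e' he' hu hv hu' hv'
    by_contra hne
    have := h2 e he e' he' hne
    have h5 : 1 < (e ∩ e').card :=
      one_lt_card.2 ⟨u, mem_inter.2 ⟨hu, hu'⟩, v, mem_inter.2 ⟨hv, hv'⟩, huv⟩
    omega
  · have h5 : (D + 1) * Fintype.card (Fin (q ^ 4)) ≤ r * H.card := by
      refine large_degree r (D + 1) (q ^ 3) (Nat.succ_pos _) H h1 (fun I hI => (h3 I hI).le) ?_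
      rw [Fintype.card_fin]
      calc 2 * (q ^ 3 * (1 + 2 * (D + 1) * r)) = q ^ 3 * (2 * (1 + 2 * (D + 1) * r)) := by ring
        _ ≤ q ^ 3 * q := Nat.mul_le_mul_left _ (by omega)
        _ = q ^ 4 := by ring
    have h6 : ((D : ℝ) + 1) * (Fintype.card (Fin (q ^ 4)) : ℝ) ≤ (r : ℝ) * (H.card : ℝ) := by
      exact_mod_cast h5
    unfold averageDegree
    have hpos : (0 : ℝ) < (Fintype.card (Fin (q ^ 4)) : ℝ) := by
      rw [Fintype.card_fin]
      positivity
    rw [le_div_iff₀ hpos]
    refine le_trans ?_ h6
    exact mul_le_mul_of_nonneg_right (by linarith) hpos.le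
  · unfold chSep
    refine Nat.sInf_le ?_
    intro L hL hsep
    refine sep_choosable H (q ^ 3) (fun I hI => (h3 I hI).le) ?_ L hL hsep
    intro S hS
    rw [Fintype.card_fin] at hS
    exact h4 S hS

/-- The statement Q1 of MP_873812_co. -/
def Statement : Prop :=
  ∀ r : ℕ, 3 ≤ r → ∃ f g : ℝ → ℝ, Tendsto f atTop atTop ∧ Tendsto g atTop atTop ∧
    ∀ (n : ℕ) (H : Finset (Finset (Fin n))), Uniform r H → Linear H →
      f (averageDegree r H) ≤ (chSep H : ℝ) ∧ g (averageDegree r H) ≤ (chAd H : ℝ)

theorem not_statement : ¬ Statement := by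
  intro h
  obtain ⟨f, g, hf, _, hH⟩ := h 30 (by norm_num)
  obtain ⟨d, hd⟩ := (tendsto_atTop.1 hf 4).exists_forall_of_atTop
  obtain ⟨n, H, hu, hl, hdeg, hch⟩ := main 30 le_rfl d
  have h1 := (hH n H hu hl).1
  have h2 := hd _ hdeg
  have h3 : ((chSep H : ℕ) : ℝ) ≤ 3 := by exact_mod_cast hch
  linarith

end Q127.Sep
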