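import Pool.Agent.Q127.Sep.Count

/-!
# A random linear uniform hypergraph

The tuples of a list are accepted one after the other as edges of a linear hypergraph, provided
that they are injective and meet all earlier edges in at most one vertex.
-/

set_option autoImplicit false
set_option linter.unusedSectionVars false

namespace Q127.Sep

open Finset

variable {V : Type*} [Fintype V] [DecidableEq V] {r : ℕ}

/-- The set of vertices of a tuple. -/
def img (x : Fin r → V) : Finset V := univ.image x

/-- The tuple `x` can be added to the linear hypergraph `E`. -/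
def Ok (E : Finset (Finset V)) (x : Fin r → V) : Prop :=
  Function.Injective x ∧ ∀ e ∈ E, (img x ∩ e).card ≤ 1

instance (E : Finset (Finset V)) : DecidablePred (Ok (r := r) E) := fun x =>
  inferInstanceAs (Decidable (Function.Injective x ∧ ∀ e ∈ E, (img x ∩ e).card ≤ 1))

/-- The hypergraph of the accepted tuples. -/
def acc : List (Fin r → V) → Finset (Finset V)
  | [] => ∅
  | x :: l => if Ok (acc l) x then insert (img x) (acc l) else acc l

theorem acc_cons_subset (x : Fin r → V) (l : List (Fin r → V)) : acc l ⊆ acc (x :: l) := by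
  rw [acc]
  split_ifs
  · exact subset_insert _ _
  · exact subset_rfl

omit [Fintype V] in
theorem card_img {x : Fin r → V} (hx : Function.Injective x) : (img x).card = r := by
  unfold img
  rw [card_image_of_injective _ hx, card_univ, Fintype.card_fin]

theorem acc_uniform (l : List (Fin r → V)) : ∀ e ∈ acc l, e.card = r := by
  induction l with
  | nil => simp [acc]
  | cons x l ih =>
    intro e he
    rw [acc] at he
    split_ifs at he with h
    · rw [mem_insert] at he
      rcases he with rfl | he
      · exact card_img h.1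
      · exact ih e he
    · exact ih e he

theorem acc_linear (l : List (Fin r → V)) :
    ∀ e ∈ acc l, ∀ e' ∈ acc l, e ≠ e' → (e ∩ e').card ≤ 1 := by
  induction l with
  | nil => simp [acc]
  | cons x l ih =>
    intro e he e' he' hne
    rw [acc] at he he'
    split_ifs at he he' with h
    · rw [mem_insert] at he he'
      rcases he with rfl | he <;> rcases he' with rfl | he'
      · exact absurd rfl hne
      · exact h.2 e' he'
      · rw [inter_comm]
        exact h.2 e he
      · exact ih e he e' he' hne
    · exact ih e he e' he' hne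

theorem card_acc_le (l : List (Fin r → V)) : (acc l).card ≤ l.length := by
  induction l with
  | nil => simp [acc]
  | cons x l ih =>
    rw [acc, List.length_cons]
    split_ifs
    · exact le_trans (card_insert_le _ _) (by omega)
    · omega

theorem card_acc_filter_le (S : Finset V) (l : List (Fin r → V)) :
    ((acc l).filter (fun e => e ⊆ S)).card ≤ l.countP (fun x => decide (img x ⊆ S)) := by
  induction l with
  | nil => simp [acc]
  | cons x l ih =>
    rw [acc, List.countP_cons]
    by_cases hx : img x ⊆ S
    · simp only [hx, decide_true, if_true]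
      split_ifs
      · rw [filter_insert, if_pos hx]
        exact le_trans (card_insert_le _ _) (by omega)
      · omega
    · have hd : decide (img x ⊆ S) = false := by simp [hx]
      rw [hd]
      simp only [Bool.false_eq_true, if_false, add_zero]
      split_ifs
      · rw [filter_insert, if_neg hx]
        exact ih
      · exact ih

/-- The set `I` meets every edge in at most one vertex. -/
def Indep (E : Finset (Finset V)) (I : Finset V) : Prop := ∀ e ∈ E, (e ∩ I).card ≤ 1

/-- `u` and `v` are equal or lie in a common edge. -/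
def Near (E : Finset (Finset V)) (u v : V) : Prop := u = v ∨ ∃ e ∈ E, u ∈ e ∧ v ∈ e

instance (E : Finset (Finset V)) : DecidableRel (Near E) := fun u v =>
  inferInstanceAs (Decidable (u = v ∨ ∃ e ∈ E, u ∈ e ∧ v ∈ e))

omit [Fintype V] in
/-- The number of near pairs between two sets. -/
theorem card_near_le (E : Finset (Finset V)) (X Y : Finset V) (x y : ℕ)
    (hX : ∀ e ∈ E, (e ∩ X).card ≤ x) (hY : ∀ e ∈ E, (e ∩ Y).card ≤ y) :
    ((X ×ˢ Y).filter (fun p => Near E p.1 p.2)).card ≤ X.card + x * y * E.card := by
  have hsub : (X ×ˢ Y).filter (fun p => Near E p.1 p.2) ⊆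
      X.image (fun v => (v, v)) ∪ E.biUnion (fun e => (e ∩ X) ×ˢ (e ∩ Y)) := by
    intro p hp
    rw [mem_filter, mem_product] at hp
    rw [mem_union]
    rcases hp.2 with h | ⟨e, he, h1, h2⟩
    · left
      rw [mem_image]
      exact ⟨p.1, hp.1.1, Prod.ext rfl h⟩
    · right
      rw [mem_biUnion]
      exact ⟨e, he, mem_product.2 ⟨mem_inter.2 ⟨h1, hp.1.1⟩, mem_inter.2 ⟨h2, hp.1.2⟩⟩⟩
  refine le_trans (card_le_card hsub) (le_trans (card_union_le _ _) ?_)
  refine Nat.add_le_add card_image_le ?_
  rw [mul_comm (x * y)]
  refine card_biUnion_le_card_mul _ _ _ (fun e he => ?_)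
  rw [card_product]
  exact Nat.mul_le_mul (hX e he) (hY e he)

/-- If `I` meets every edge of `E` in at most one vertex, then many tuples can be added to `E`
and have two vertices in `I`. -/
theorem many_good (hr : 2 ≤ r) (E : Finset (Finset V)) (hE : ∀ e ∈ E, e.card = r) (I : Finset V)
    (hI : Indep E I) (n a N : ℕ) (hn : Fintype.card V = n) (ha : I.card = a) (hN : E.card ≤ N)
    (ha0 : 0 < a) (hn0 : 0 < n)
    (h1 : 2 * r ^ 2 ≤ a) (h2 : 2 * r ^ 2 * (n + r * N) ≤ a * n)
    (h3 : 2 * r ^ 2 * (n + r * r * N) ≤ n * n) :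
    a * a * n ^ (r - 2) ≤
      2 * ((univ : Finset (Fin r → V)).filter (fun x => Ok E x ∧ 1 < (img x ∩ I).card)).card := by
  set i0 : Fin r := ⟨0, by omega⟩ with hi0
  set i1 : Fin r := ⟨1, by omega⟩ with hi1
  have hi01 : i0 ≠ i1 := by simp [hi0, hi1]
  set A : Fin r → Finset V := fun i => if i = i0 ∨ i = i1 then I else univ with hA
  have hAI : ∀ i, (i = i0 ∨ i = i1) → A i = I := fun i hi => if_pos hi
  have hAU : ∀ i, ¬ (i = i0 ∨ i = i1) → A i = univ := fun i hi => if_neg hi
  have hcI : ∀ i, (i = i0 ∨ i = i1) → (A i).card = a := fun i hi => by rw [hAI i hi, ha]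
  have hcU : ∀ i, ¬ (i = i0 ∨ i = i1) → (A i).card = n := fun i hi => by
    rw [hAU i hi, card_univ, hn]
  have hpos : ∀ i, 0 < (A i).card := by
    intro i
    by_cases hi : i = i0 ∨ i = i1
    · rw [hcI i hi]; exact ha0
    · rw [hcU i hi]; exact hn0
  have hEV : ∀ e ∈ E, (e ∩ univ).card ≤ r := fun e he => by rw [inter_univ, hE e he]
  have hEI : ∀ e ∈ E, (e ∩ I).card ≤ 1 := hI
  have hprod : ∏ i, (A i).card = a * a * n ^ (r - 2) := by
    have hmem : i1 ∈ (univ : Finset (Fin r)).erase i0 := mem_erase.2 ⟨hi01.symm, mem_univ _⟩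
    rw [← mul_prod_erase _ (fun i => (A i).card) (mem_univ i0),
      ← mul_prod_erase _ (fun i => (A i).card) hmem, hcI i0 (Or.inl rfl), hcI i1 (Or.inr rfl),
      mul_assoc]
    congr 2
    have : ∀ i ∈ ((univ : Finset (Fin r)).erase i0).erase i1, (A i).card = n := by
      intro i hi
      rw [mem_erase, mem_erase] at hi
      exact hcU i (by tauto)
    rw [prod_congr rfl this, prod_const, card_erase_of_mem hmem, card_erase_of_mem (mem_univ _),
      card_univ, Fintype.card_fin]
    rfl
  have hna : a ≤ n := by
    rw [← ha, ← hn, ← card_univ]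
    exact card_le_card (subset_univ _)
  have hhalf := half_good A (Near E) hpos (by
    intro j k hjk
    by_cases hj : j = i0 ∨ j = i1
    · by_cases hk : k = i0 ∨ k = i1
      · -- both in `I`
        rw [hcI j hj, hcI k hk, hAI j hj, hAI k hk]
        have hle : ((I ×ˢ I).filter (fun p => Near E p.1 p.2)).card ≤ a := by
          rw [← ha]
          have hsub : (I ×ˢ I).filter (fun p => Near E p.1 p.2) ⊆ I.image (fun v => (v, v)) := by
            intro p hp
            rw [mem_filter, mem_product] at hp
            rw [mem_image]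
            rcases hp.2 with h | ⟨e, he, h1, h2⟩
            · exact ⟨p.1, hp.1.1, Prod.ext rfl h⟩
            · refine ⟨p.1, hp.1.1, Prod.ext rfl ?_⟩
              exact card_le_one.1 (hEI e he) p.1 (mem_inter.2 ⟨h1, hp.1.1⟩) p.2
                (mem_inter.2 ⟨h2, hp.1.2⟩)
          exact le_trans (card_le_card hsub) card_image_le
        calc 2 * r ^ 2 * ((I ×ˢ I).filter (fun p => Near E p.1 p.2)).card
            ≤ 2 * r ^ 2 * a := Nat.mul_le_mul_left _ hle
          _ ≤ a * a := Nat.mul_le_mul_right _ h1
      · rw [hcI j hj, hcU k hk, hAI j hj, hAU k hk]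
        have hle := card_near_le E I univ 1 r hEI hEV
        rw [ha, one_mul] at hle
        calc 2 * r ^ 2 * ((I ×ˢ univ).filter (fun p => Near E p.1 p.2)).card
            ≤ 2 * r ^ 2 * (n + r * N) := by
              refine Nat.mul_le_mul_left _ (le_trans hle ?_)
              exact Nat.add_le_add hna (Nat.mul_le_mul_left _ hN)
          _ ≤ a * n := h2
    · by_cases hk : k = i0 ∨ k = i1
      · rw [hcU j hj, hcI k hk, hAU j hj, hAI k hk]
        have hle := card_near_le E univ I r 1 hEV hEI
        rw [card_univ, hn, mul_one] at hle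
        calc 2 * r ^ 2 * ((univ ×ˢ I).filter (fun p => Near E p.1 p.2)).card
            ≤ 2 * r ^ 2 * (n + r * N) := by
              refine Nat.mul_le_mul_left _ (le_trans hle ?_)
              exact Nat.add_le_add le_rfl (Nat.mul_le_mul_left _ hN)
          _ ≤ n * a := by rw [mul_comm n a]; exact h2
      · rw [hcU j hj, hcU k hk, hAU j hj, hAU k hk]
        have hle := card_near_le E univ univ r r hEV hEV
        rw [card_univ, hn] at hle
        calc 2 * r ^ 2 * (((univ : Finset V) ×ˢ univ).filter (fun p => Near E p.1 p.2)).card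
            ≤ 2 * r ^ 2 * (n + r * r * N) := by
              refine Nat.mul_le_mul_left _ (le_trans hle ?_)
              exact Nat.add_le_add le_rfl (Nat.mul_le_mul_left _ hN)
          _ ≤ n * n := h3)
  rw [hprod] at hhalf
  refine le_trans hhalf (Nat.mul_le_mul_left _ (card_le_card ?_))
  intro x hx
  rw [mem_filter, Fintype.mem_piFinset] at hx
  obtain ⟨hxA, hxP⟩ := hx
  rw [mem_filter]
  have hinj : Function.Injective x := by
    intro j k hjk
    by_contra hne
    exact hxP j k hne (Or.inl hjk)
  refine ⟨mem_univ _, ⟨hinj, ?_⟩, ?_⟩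
  · intro e he
    rw [card_le_one]
    intro u hu v hv
    rw [mem_inter, img, mem_image] at hu hv
    obtain ⟨⟨j, _, rfl⟩, huE⟩ := hu
    obtain ⟨⟨k, _, rfl⟩, hvE⟩ := hv
    by_contra hne
    exact hxP j k (fun h => hne (by rw [h])) (Or.inr ⟨e, he, huE, hvE⟩)
  · rw [one_lt_card]
    have m0 := hxA i0
    have m1 := hxA i1
    rw [hAI i0 (Or.inl rfl)] at m0
    rw [hAI i1 (Or.inr rfl)] at m1
    refine ⟨x i0, mem_inter.2 ⟨mem_image_of_mem _ (mem_univ _), m0⟩, x i1,
      mem_inter.2 ⟨mem_image_of_mem _ (mem_univ _), m1⟩, fun h => hi01 (hinj h)⟩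

theorem indep_tail (I : Finset V) (x : Fin r → V) (l : List (Fin r → V))
    (h : Indep (acc (x :: l)) I) : Indep (acc l) I :=
  fun e he => h e (acc_cons_subset x l he)

theorem not_indep_of_ok (I : Finset V) (x : Fin r → V) (l : List (Fin r → V))
    (hx : Ok (acc l) x) (hI : 1 < (img x ∩ I).card) : ¬ Indep (acc (x :: l)) I := by
  intro h
  have := h (img x) (by rw [acc, if_pos hx]; exact mem_insert_self _ _)
  omega

end Q127.Sep
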